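import Mathlib

namespace Pool.Agent.Results.MP_50682e_co.Theta

open SimpleGraph

/-- `G` is saturated for the family of cycles of lengths `4, ..., r`. -/
def Saturated (r : ℕ) {n : ℕ} (G : SimpleGraph (Fin n)) : Prop :=
  (∀ l, 4 ≤ l → l ≤ r → ¬ cycleGraph l ⊑ G) ∧
    ∀ x y, x ≠ y → ¬ G.Adj x y → ∃ l, 4 ≤ l ∧ l ≤ r ∧ cycleGraph l ⊑ G ⊔ edge x y

/-- The saturation number. -/
noncomputable def sat (r n : ℕ) : ℕ :=
  sInf {e | ∃ G : SimpleGraph (Fin n), Saturated r G ∧ G.edgeSet.ncard = e}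

def lv (k : ℕ) : ℕ := if k = 0 then 0 else if k = 1 then 5 else (k - 2) % 4 + 1

def A (a b : ℕ) : Prop :=
  (lv a + 1 = lv b ∨ lv b + 1 = lv a) ∧ (a < 2 ∨ b < 2 ∨ (a - 2) / 4 = (b - 2) / 4)

def G (n : ℕ) : SimpleGraph (Fin n) where
  Adj a b := A a b
  symm := ⟨fun a b h => by unfold A at *; omega⟩
  loopless := ⟨fun a h => by unfold A at *; omega⟩

lemma lvs (k : ℕ) : (k = 0 ∧ lv k = 0) ∨ (k = 1 ∧ lv k = 5) ∨
    (2 ≤ k ∧ lv k = (k - 2) % 4 + 1) := by
  unfold lv; split_ifs <;> omega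

lemma top {a b c : ℕ} (h1 : A a b) (h2 : A a c) (hb : lv b ≤ lv a) (hc : lv c ≤ lv a)
    (hbc : b ≠ c) : lv a = 5 := by
  have := lvs a; have := lvs b; have := lvs c
  unfold A at *
  omega

lemma bot {a b c : ℕ} (h1 : A a b) (h2 : A a c) (hb : lv a ≤ lv b) (hc : lv a ≤ lv c)
    (hbc : b ≠ c) : lv a = 0 := by
  have := lvs a; have := lvs b; have := lvs c
  unfold A at *
  omega

lemma free (n l : ℕ) (h4 : 4 ≤ l) (h9 : l ≤ 9) : ¬ cycleGraph l ⊑ G n := by
  obtain ⟨k, rfl⟩ : ∃ k, l = k + 3 := ⟨l - 3, by omega⟩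
  rintro ⟨φ⟩
  have hinj := φ.injective
  have hs : ∀ i, A (φ i) (φ (i + 1)) := fun i => φ.toHom.map_adj (by
    rw [cycleGraph_adj]; right; simp)
  have hp : ∀ i, A (φ i) (φ (i - 1)) := fun i => φ.toHom.map_adj (by
    rw [cycleGraph_adj]; left; simp)
  have hne : ∀ i : Fin (k + 3), (φ (i + 1)).val ≠ (φ (i - 1)).val := by
    intro i h
    have h1 : i + 1 = i - 1 := hinj (Fin.ext h)
    have h2 : (1 + 1 : Fin (k + 3)) = 0 := by
      rw [eq_sub_iff_add_eq, add_assoc] at h1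
      exact add_eq_left.1 h1
    have h3 := congrArg Fin.val h2
    rw [Fin.val_add, Fin.val_one, Nat.mod_eq_of_lt (by omega)] at h3
    simp at h3
  obtain ⟨i, -, hi⟩ := Finset.exists_max_image Finset.univ (fun i => lv (φ i)) Finset.univ_nonempty
  obtain ⟨j, -, hj⟩ := Finset.exists_min_image Finset.univ (fun i => lv (φ i)) Finset.univ_nonempty
  have e5 := top (hs i) (hp i) (hi _ (Finset.mem_univ _)) (hi _ (Finset.mem_univ _)) (hne i)
  have e0 := bot (hs j) (hp j) (hj _ (Finset.mem_univ _)) (hj _ (Finset.mem_univ _)) (hne j)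
  have up : ∀ t : ℕ, lv (φ (j + Fin.ofNat _ t)) ≤ t := by
    intro t
    induction t with
    | zero => simp [e0]
    | succ t ih =>
      have e : j + Fin.ofNat (k + 3) (t + 1) = j + Fin.ofNat (k + 3) t + 1 := by
        rw [add_assoc]; congr 1; simp [Fin.ext_iff, Fin.val_add]
      have := (hs (j + Fin.ofNat _ t)).1
      rw [e]; omega
  have dn : ∀ t : ℕ, lv (φ (j - Fin.ofNat _ t)) ≤ t := by
    intro t
    induction t with
    | zero => simp [e0]
    | succ t ih =>
      have e : j - Fin.ofNat (k + 3) (t + 1) = j - Fin.ofNat (k + 3) t - 1 := by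
        rw [sub_sub]; congr 1; simp [Fin.ext_iff, Fin.val_add]
      have := (hp (j - Fin.ofNat _ t)).1
      rw [e]; omega
  have u := up (i - j).val
  have d := dn (j - i).val
  rw [Fin.ofNat_val_eq_self, add_sub_cancel, e5] at u
  rw [Fin.ofNat_val_eq_self, sub_sub_cancel, e5] at d
  have hi' := i.isLt
  have hj' := j.isLt
  rcases le_total i j with h | h
  · have e1 := Fin.coe_sub_iff_le.2 h
    rcases eq_or_lt_of_le h with rfl | h
    · omega
    · have e2 := Fin.coe_sub_iff_lt.2 h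
      omega
  · have e1 := Fin.coe_sub_iff_le.2 h
    rcases eq_or_lt_of_le h with rfl | h
    · omega
    · have e2 := Fin.coe_sub_iff_lt.2 h
      omega

/-- position `t` on the 10-cycle formed by the paths `p` and `q` -/
def pos (p q t : ℕ) : ℕ :=
  if t = 0 then 0 else if t = 5 then 1 else if t < 5 then 4 * p + 1 + t else 4 * q + 11 - t

lemma poss (p q t : ℕ) : (t = 0 ∧ pos p q t = 0) ∨ (t = 5 ∧ pos p q t = 1) ∨
    (0 < t ∧ t < 5 ∧ pos p q t = 4 * p + 1 + t) ∨ (5 < t ∧ pos p q t = 4 * q + 11 - t) := by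
  unfold pos; split_ifs <;> omega

lemma chord : ∀ a b : Fin 10, a < b → b - a ≠ 1 → a - b ≠ 1 →
    ∃ s : Fin 10, ∃ t : Fin 10, 3 ≤ t.val ∧ t.val ≤ 8 ∧
      ((s = a ∧ s + t = b) ∨ (s = b ∧ s + t = a)) := by decide

lemma chord_cycle {V : Type} (H : SimpleGraph V) (ψ : Fin 10 → V) (hψ : Function.Injective ψ)
    (hadj : ∀ i, H.Adj (ψ i) (ψ (i + 1))) (s t : Fin 10) (h3 : 3 ≤ t.val)
    (hst : H.Adj (ψ (s + t)) (ψ s)) : cycleGraph (t.val + 1) ⊑ H := by
  obtain ⟨k, hk⟩ : ∃ k, t.val = k + 1 := ⟨t.val - 1, by omega⟩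
  have ht := t.isLt
  rw [hk]
  have key : ∀ i : Fin (k + 1 + 1), H.Adj (ψ (s + Fin.ofNat 10 i.val))
      (ψ (s + Fin.ofNat 10 (i + 1).val)) := by
    intro i
    by_cases hi : i = Fin.last _
    · subst hi
      have e : Fin.ofNat 10 (Fin.last (k + 1)).val = t := by
        rw [Fin.val_last, ← hk, Fin.ofNat_val_eq_self]
      rw [e]
      simpa using hst
    · rw [Fin.val_add_one, if_neg hi]
      have e : s + Fin.ofNat 10 (i.val + 1) = s + Fin.ofNat 10 i.val + 1 := by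
        rw [add_assoc s]; congr 1; simp [Fin.ext_iff, Fin.val_add]
      rw [e]
      exact hadj _
  refine ⟨⟨⟨fun i => ψ (s + Fin.ofNat 10 i.val), ?_⟩, ?_⟩⟩
  · intro a b hab
    rw [cycleGraph_adj] at hab
    rcases hab with h | h
    · have : a = b + 1 := by rw [← h]; simp
      subst this
      exact (key b).symm
    · have : b = a + 1 := by rw [← h]; simp
      subst this
      exact key a
  · intro a b hab
    have := add_left_cancel (hψ hab)
    have ha := a.isLt
    have hb := b.isLt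
    simp only [Fin.ext_iff, Fin.val_ofNat] at this ⊢
    omega

lemma satur (m : ℕ) (hm : 2 ≤ m) : Saturated 9 (G (4 * m + 2)) := by
  refine ⟨fun l h1 h2 => free _ l h1 h2, ?_⟩
  intro x y hxy hn
  have hx := x.isLt
  have hy := y.isLt
  obtain ⟨p, q, hp, hq, hpq, a, b, ha, hb⟩ : ∃ p q, p < m ∧ q < m ∧ p ≠ q ∧ ∃ a b : Fin 10,
      pos p q a = x ∧ pos p q b = y := by
    have l1 := lvs x
    have l2 := lvs y
    by_cases h : (x.val - 2) / 4 = (y.val - 2) / 4
    · obtain ⟨q, q1, q2⟩ : ∃ q, q < m ∧ (x.val - 2) / 4 ≠ q := by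
        by_cases h0 : (x.val - 2) / 4 = 0
        · exact ⟨1, by omega, by omega⟩
        · exact ⟨0, by omega, by omega⟩
      refine ⟨(x.val - 2) / 4, q, by omega, q1, q2, ⟨lv x, by omega⟩, ⟨lv y, by omega⟩, ?_, ?_⟩
      · have := poss ((x.val - 2) / 4) q (lv x)
        simp only
        omega
      · have := poss ((x.val - 2) / 4) q (lv y)
        simp only
        omega
    · refine ⟨(x.val - 2) / 4, (y.val - 2) / 4, by omega, by omega, h,
        ⟨lv x, by omega⟩, ⟨(10 - lv y) % 10, by omega⟩, ?_, ?_⟩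
      · have := poss ((x.val - 2) / 4) ((y.val - 2) / 4) (lv x)
        simp only
        omega
      · have := poss ((x.val - 2) / 4) ((y.val - 2) / 4) ((10 - lv y) % 10)
        simp only
        omega
  let ψ : Fin 10 → Fin (4 * m + 2) := fun t => ⟨pos p q t, by
    have := t.isLt
    have := poss p q t
    omega⟩
  have hψ : Function.Injective ψ := by
    intro s t h
    have hs := s.isLt
    have ht := t.isLt
    have := poss p q s
    have := poss p q t
    simp only [ψ, Fin.ext_iff] at h ⊢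
    omega
  have hadj : ∀ i, (G (4 * m + 2)).Adj (ψ i) (ψ (i + 1)) := by
    intro i
    show A (pos p q i) (pos p q (i + 1 : Fin 10))
    have h1 := poss p q i
    have h2 := poss p q (i + 1 : Fin 10)
    have h3 := lvs (pos p q i)
    have h4 := lvs (pos p q (i + 1 : Fin 10))
    have h5 : ((i + 1 : Fin 10) : ℕ) = (i.val + 1) % 10 := by simp [Fin.val_add]
    have h6 := i.isLt
    unfold A
    omega
  have ea : ψ a = x := Fin.ext ha
  have eb : ψ b = y := Fin.ext hb
  have hab : a ≠ b := fun h => hxy (by rw [← ea, ← eb, h])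
  have n1 : b - a ≠ 1 := fun h => hn (by
    have : b = a + 1 := by rw [← h]; simp
    rw [← ea, ← eb, this]; exact hadj a)
  have n2 : a - b ≠ 1 := fun h => hn (by
    have : a = b + 1 := by rw [← h]; simp
    rw [← ea, ← eb, this]; exact (hadj b).symm)
  obtain ⟨s, t, h3, h8, hst⟩ : ∃ s : Fin 10, ∃ t : Fin 10, 3 ≤ t.val ∧ t.val ≤ 8 ∧
      ((s = a ∧ s + t = b) ∨ (s = b ∧ s + t = a)) := by
    rcases lt_or_gt_of_ne hab with h | h
    · exact chord a b h n1 n2
    · obtain ⟨s, t, h3, h8, hst⟩ := chord b a h n2 n1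
      exact ⟨s, t, h3, h8, hst.symm⟩
  refine ⟨t.val + 1, by omega, by omega, chord_cycle _ ψ hψ (fun i => Or.inl (hadj i)) s t h3 ?_⟩
  right
  rcases hst with ⟨h1, h2⟩ | ⟨h1, h2⟩
  · rw [h2, h1, ea, eb, edge_adj]; exact ⟨Or.inr ⟨rfl, rfl⟩, hxy.symm⟩
  · rw [h2, h1, ea, eb, edge_adj]; exact ⟨Or.inl ⟨rfl, rfl⟩, hxy⟩

lemma edges (m : ℕ) : (G (4 * m + 2)).edgeSet.ncard ≤ 5 * m := by
  let f : Fin m × Fin 5 → Sym2 (Fin (4 * m + 2)) := fun z =>
    s(⟨pos z.1 0 z.2, by
        have := z.1.isLt; have := z.2.isLt; have := poss z.1 0 z.2; omega⟩,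
      ⟨pos z.1 0 (z.2 + 1), by
        have := z.1.isLt; have := z.2.isLt; have := poss z.1 0 (z.2 + 1); omega⟩)
  have hsub : (G (4 * m + 2)).edgeSet ⊆ f '' Set.univ := by
    have key : ∀ a b : Fin (4 * m + 2), A a b → lv a + 1 = lv b → s(a, b) ∈ f '' Set.univ := by
      intro a b hab h
      have ha := a.isLt
      have hb := b.isLt
      have l1 := lvs a
      have l2 := lvs b
      have l3 := poss ((max a.val b.val - 2) / 4) 0 (lv a)
      have l4 := poss ((max a.val b.val - 2) / 4) 0 (lv a + 1)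
      unfold A at hab
      refine ⟨(⟨(max a.val b.val - 2) / 4, by omega⟩, ⟨lv a, by omega⟩), trivial, ?_⟩
      simp only [f]
      congr 1 <;> simp only [Fin.ext_iff] <;> omega
    intro e
    induction e using Sym2.ind with
    | h a b =>
      intro hab
      have hab' : A a b := hab
      rcases hab'.1 with h | h
      · exact key a b hab' h
      · rw [Sym2.eq_swap]
        exact key b a ((G _).symm.1 _ _ hab) h
  calc _ ≤ (f '' Set.univ).ncard := Set.ncard_le_ncard hsub (Set.toFinite _)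
    _ ≤ (Set.univ : Set (Fin m × Fin 5)).ncard := Set.ncard_image_le (Set.toFinite _)
    _ = 5 * m := by rw [Set.ncard_univ]; simp [mul_comm]

theorem result :
    ∃ r : ℕ, 5 ≤ r ∧ ∀ N : ℕ, ∃ n : ℕ, N ≤ n ∧ (∃ H : SimpleGraph (Fin n), Saturated r H) ∧
      (sat r n : ℤ) < ⌈(5 * n / 4 - 3 / 2 : ℚ)⌉ := by
  refine ⟨9, by norm_num, fun N => ⟨4 * (N + 2) + 2, by omega, ⟨_, satur _ (by omega)⟩, ?_⟩⟩
  have h1 : sat 9 (4 * (N + 2) + 2) ≤ 5 * (N + 2) := by
    refine le_trans (Nat.sInf_le ?_) (edges (N + 2))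
    exact ⟨_, satur (N + 2) (by omega), rfl⟩
  rw [Int.lt_ceil]
  have : ((sat 9 (4 * (N + 2) + 2) : ℕ) : ℚ) ≤ 5 * (N + 2) := by exact_mod_cast h1
  push_cast
  linarith

end Pool.Agent.Results.MP_50682e_co.Theta
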